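import Pool.Agent.Helper31.Del.Goals

/-! Packet S5: the dimension count for bad families of affine subspaces. -/

namespace Pool.Agent.Helper68.Del

open Module Pool.Agent.Helper31.Del

theorem chainDim (E : Type*) [NormedAddCommGroup E] [InnerProductSpace ℝ E]
    [FiniteDimensional ℝ E] : ChainDim E := by
  classical
  intro σ f hσ hcod hf hf' W₁ hW₁
  obtain ⟨WL, hWL, hne⟩ : ∃ WL ∈ σ, WL ≠ W₁ := by
    by_contra hcon
    push Not at hcon
    have : σ ⊆ {W₁} := fun W hW => by
      rw [Finset.mem_singleton]; exact hcon W hW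
    have := Finset.card_le_card this
    simp at this
    omega
  set B : AffineSubspace ℝ E := sInf {W | W ∈ σ ∧ W ≠ W₁} with hB
  have hBle : ∀ W ∈ σ, W ≠ W₁ → B ≤ W := fun W hW hWn => sInf_le ⟨hW, hWn⟩
  have hBne : (B : Set E).Nonempty := by
    refine ⟨f W₁, ?_⟩
    show f W₁ ∈ B
    rw [hB, AffineSubspace.mem_sInf_iff]
    intro W hW
    exact hf' W₁ hW₁ W hW.1 hW.2
  set τ := (σ.erase W₁).erase WL with hτ
  have hτcard : τ.card + 2 = σ.card := by
    rw [hτ, Finset.card_erase_of_mem (Finset.mem_erase.2 ⟨hne, hWL⟩), Finset.card_erase_of_mem hW₁]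
    omega
  have hτmem : ∀ W ∈ τ, W ∈ σ ∧ W ≠ W₁ ∧ W ≠ WL := fun W hW => by
    rw [hτ, Finset.mem_erase, Finset.mem_erase] at hW
    exact ⟨hW.2.2, hW.2.1, hW.1⟩
  have key : ∀ ρ : Finset (AffineSubspace ℝ E), ρ ⊆ τ →
      finrank ℝ B.direction + ρ.card ≤
        finrank ℝ (B ⊔ affineSpan ℝ (f '' (ρ : Set (AffineSubspace ℝ E)))).direction := by
    intro ρ
    induction ρ using Finset.induction_on with
    | empty =>
      intro _
      rw [Finset.card_empty, add_zero]
      exact Submodule.finrank_mono (AffineSubspace.direction_le le_sup_left)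
    | insert W ρ hW ih =>
      intro hsub
      have hWτ : W ∈ τ := hsub (Finset.mem_insert_self _ _)
      obtain ⟨hWσ, hW1, hW2⟩ := hτmem W hWτ
      have hρ : ρ ⊆ τ := fun x hx => hsub (Finset.mem_insert_of_mem hx)
      have ih' := ih hρ
      rw [Finset.card_insert_of_notMem hW]
      set S := B ⊔ affineSpan ℝ (f '' (ρ : Set (AffineSubspace ℝ E))) with hS
      set S' := B ⊔ affineSpan ℝ (f '' ((insert W ρ : Finset (AffineSubspace ℝ E)) :
        Set (AffineSubspace ℝ E))) with hS'
      have hSW : S ≤ W := by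
        refine sup_le (hBle W hWσ hW1) ?_
        rw [affineSpan_le]
        rintro _ ⟨W', hW', rfl⟩
        have hW'ρ : W' ∈ ρ := hW'
        have hW'σ := (hτmem W' (hρ hW'ρ)).1
        refine hf' W' hW'σ W hWσ ?_
        rintro rfl
        exact hW hW'ρ
      have hSS' : S ≤ S' := by
        refine sup_le_sup le_rfl (affineSpan_mono ℝ (Set.image_mono ?_))
        intro x hx
        exact Finset.mem_insert_of_mem hx
      have hfS' : f W ∈ S' := by
        have h1 : f W ∈ affineSpan ℝ (f '' ((insert W ρ : Finset (AffineSubspace ℝ E)) :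
            Set (AffineSubspace ℝ E))) :=
          subset_affineSpan ℝ _ ⟨W, Finset.mem_insert_self _ _, rfl⟩
        exact (le_sup_right : _ ≤ S') h1
      have hlt : S < S' := by
        refine lt_of_le_of_ne hSS' ?_
        intro heq
        rw [← heq] at hfS'
        exact hf W hWσ (hSW hfS')
      have hSne : (S : Set E).Nonempty := by
        obtain ⟨b, hb⟩ := hBne
        exact ⟨b, (le_sup_left : B ≤ S) hb⟩
      have hdir := AffineSubspace.direction_lt_of_nonempty hlt hSne
      have := Submodule.finrank_lt_finrank_of_lt hdir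
      omega
  have h1 := key τ (Finset.Subset.refl _)
  have h2 : B ⊔ affineSpan ℝ (f '' (τ : Set (AffineSubspace ℝ E))) ≤ WL := by
    refine sup_le (hBle WL hWL hne) ?_
    rw [affineSpan_le]
    rintro _ ⟨W', hW', rfl⟩
    obtain ⟨h3, h4, h5⟩ := hτmem W' hW'
    exact hf' W' h3 WL hWL h5.symm
  have h3 := Submodule.finrank_mono (AffineSubspace.direction_le h2)
  have h4 := hcod WL hWL
  omega

end Pool.Agent.Helper68.Del
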