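import Pool.Agent.Helper31.Del.Goals

/-! Packet B1: one commutator. -/

namespace Pool.Agent.Helper68.Del

open Module Pool.Agent.Helper31.Del

section

variable {V : Type*} [NormedAddCommGroup V] [InnerProductSpace ℝ V]

lemma aff_apply (a : V ≃ᵃⁱ[ℝ] V) (v : V) : a v = a.linearIsometryEquiv v + a 0 := by
  have h := a.map_vadd 0 v
  simpa using h

lemma aff_mul (a b : V ≃ᵃⁱ[ℝ] V) (v : V) : (a * b) v = a (b v) := rfl

lemma aff_inv_self (a : V ≃ᵃⁱ[ℝ] V) (v : V) : a⁻¹ (a v) = v := by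
  rw [← aff_mul, inv_mul_cancel]; rfl

lemma aff_self_inv (a : V ≃ᵃⁱ[ℝ] V) (v : V) : a (a⁻¹ v) = v := by
  rw [← aff_mul, mul_inv_cancel]; rfl

lemma anr_nonneg {a : V ≃ᵃⁱ[ℝ] V} {δ : ℝ} (h : ANr a δ) : 0 ≤ δ := (norm_nonneg _).trans h.1

lemma aff_move {a : V ≃ᵃⁱ[ℝ] V} {δ : ℝ} (h : ANr a δ) (p : V) : ‖a p - p‖ ≤ δ * (1 + ‖p‖) := by
  have h1 : a p - p = (a.linearIsometryEquiv p - p) + a 0 := by
    rw [aff_apply a p]; abel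
  rw [h1]
  calc ‖(a.linearIsometryEquiv p - p) + a 0‖ ≤ _ := norm_add_le _ _
    _ ≤ δ * ‖p‖ + δ := add_le_add (h.2 p) h.1
    _ = δ * (1 + ‖p‖) := by ring

lemma aff_inv_move {a : V ≃ᵃⁱ[ℝ] V} {δ : ℝ} (h : ANr a δ) (p : V) :
    ‖a⁻¹ p - p‖ ≤ δ * (1 + ‖p‖) := by
  have h1 : ‖a⁻¹ p - p‖ = ‖p - a p‖ := by
    have h2 : a (a⁻¹ p) = p := aff_self_inv a p
    have h3 := a.dist_map (a⁻¹ p) p
    rw [h2, dist_eq_norm, dist_eq_norm] at h3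
    exact h3.symm
  rw [h1, norm_sub_rev]
  exact aff_move h p

/-- applying a near-identity map or its inverse inside `Y` -/
lemma good_step {Y : Set V} {ρ : ℝ} {a : V ≃ᵃⁱ[ℝ] V} {δ D r : ℝ} (ha : ANr a δ) (hδ : δ ≤ D)
    (_hD : D ≤ 1 / 2) (hρ : ρ ≤ 1) (hg : Good Y ρ a) {p : V} (hp : p ∈ Y) (hr : r ≤ ρ)
    (hpr : ‖p‖ ≤ r) : (a p ∈ Y ∧ ‖a p‖ ≤ r + 2 * D) ∧ (a⁻¹ p ∈ Y ∧ ‖a⁻¹ p‖ ≤ r + 2 * D) := by
  have hδ0 := anr_nonneg ha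
  have hp1 : ‖p‖ ≤ 1 := hpr.trans (hr.trans hρ)
  have hb : δ * (1 + ‖p‖) ≤ 2 * D := by nlinarith [norm_nonneg p]
  have h1 := aff_move ha p
  have h2 := aff_inv_move ha p
  have h3 : ‖a p‖ ≤ ‖a p - p‖ + ‖p‖ := by
    calc ‖a p‖ = ‖(a p - p) + p‖ := by rw [sub_add_cancel]
      _ ≤ _ := norm_add_le _ _
  have h4 : ‖a⁻¹ p‖ ≤ ‖a⁻¹ p - p‖ + ‖p‖ := by
    calc ‖a⁻¹ p‖ = ‖(a⁻¹ p - p) + p‖ := by rw [sub_add_cancel]
      _ ≤ _ := norm_add_le _ _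
  obtain ⟨h5, h6⟩ := hg p hp (hpr.trans hr)
  exact ⟨⟨h5, by linarith⟩, ⟨h6, by linarith⟩⟩

lemma good_inv {Y : Set V} {ρ : ℝ} {a : V ≃ᵃⁱ[ℝ] V} (h : Good Y ρ a) : Good Y ρ a⁻¹ := by
  intro p hp hn
  rw [inv_inv]
  exact ⟨(h p hp hn).2, (h p hp hn).1⟩

/-- the commutator maps inner points of `Y` into `Y` -/
lemma comm_mem {Y : Set V} {ρ : ℝ} {a b : V ≃ᵃⁱ[ℝ] V} {δ₁ δ₂ D : ℝ} (ha : ANr a δ₁)
    (hb : ANr b δ₂) (h1 : δ₁ ≤ D) (h2 : δ₂ ≤ D) (hD : D ≤ 1 / 2) (hρ : ρ ≤ 1) (hga : Good Y ρ a)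
    (hgb : Good Y ρ b) {p : V} (hp : p ∈ Y) (hn : ‖p‖ ≤ ρ - 6 * D) :
    (a * b * a⁻¹ * b⁻¹) p ∈ Y := by
  have hD0 : 0 ≤ D := (anr_nonneg ha).trans h1
  obtain ⟨q1, n1⟩ := (good_step hb h2 hD hρ hgb hp (by linarith) hn).2
  obtain ⟨q2, n2⟩ := (good_step ha h1 hD hρ hga q1 (by linarith) n1).2
  obtain ⟨q3, n3⟩ := (good_step hb h2 hD hρ hgb q2 (by linarith) n2).1
  obtain ⟨q4, n4⟩ := (good_step ha h1 hD hρ hga q3 (by linarith) n3).1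
  exact q4

end

theorem commStep (V : Type*) [NormedAddCommGroup V] [InnerProductSpace ℝ V] : CommStep V := by
  intro Y a b δ₁ δ₂ D ρ ha hb h1 h2 hD hρ hga hgb
  have hδ1 := anr_nonneg ha
  have hδ2 := anr_nonneg hb
  set A := a.linearIsometryEquiv with hA
  set B := b.linearIsometryEquiv with hB
  -- the commutator of the linear parts
  have hAB : ∀ w : V, ‖A (B w) - B (A w)‖ ≤ 2 * δ₁ * δ₂ * ‖w‖ := by
    intro w
    have e : A (B w) - B (A w) = (A (B w - w) - (B w - w)) - (B (A w - w) - (A w - w)) := by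
      rw [map_sub, map_sub]; abel
    have e1 : ‖A (B w - w) - (B w - w)‖ ≤ δ₁ * (δ₂ * ‖w‖) :=
      (ha.2 _).trans (mul_le_mul_of_nonneg_left (hb.2 w) hδ1)
    have e2 : ‖B (A w - w) - (A w - w)‖ ≤ δ₂ * (δ₁ * ‖w‖) :=
      (hb.2 _).trans (mul_le_mul_of_nonneg_left (ha.2 w) hδ2)
    rw [e]
    calc _ ≤ _ := norm_sub_le _ _
      _ ≤ δ₁ * (δ₂ * ‖w‖) + δ₂ * (δ₁ * ‖w‖) := add_le_add e1 e2
      _ = 2 * δ₁ * δ₂ * ‖w‖ := by ring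
  refine ⟨⟨?_, ?_⟩, ?_⟩
  · -- translation part
    set u := a⁻¹ (b⁻¹ 0) with hu
    have hbu : b (a u) = 0 := by rw [hu, aff_self_inv, aff_self_inv]
    have e0 : (a * b * a⁻¹ * b⁻¹) 0 = a (b u) := rfl
    have hab : a (b u) = A (B u) + A (b 0) + a 0 := by
      rw [aff_apply a (b u), aff_apply b u, map_add]
    have hba : b (a u) = B (A u) + B (a 0) + b 0 := by
      rw [aff_apply b (a u), aff_apply a u, map_add]
    have e1 : a (b u) = (A (B u) - B (A u)) + (A (b 0) - b 0) - (B (a 0) - a 0) := by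
      have : a (b u) = a (b u) - b (a u) := by rw [hbu, sub_zero]
      rw [this, hab, hba]; abel
    have hu1 : ‖u‖ ≤ δ₁ + δ₂ := by
      have h3 : ‖b⁻¹ (0 : V)‖ ≤ δ₂ := by
        have := aff_inv_move hb 0
        simpa using this
      have h4 : ‖u‖ ≤ ‖b⁻¹ (0 : V)‖ + ‖a 0‖ := by
        have h5 : a u = b⁻¹ 0 := aff_self_inv a _
        have h6 : A u = b⁻¹ 0 - a 0 := by rw [← h5, aff_apply a u]; abel
        rw [← A.norm_map u, h6]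
        exact norm_sub_le _ _
      linarith [ha.1]
    rw [e0, e1]
    have e2 : ‖A (b 0) - b 0‖ ≤ δ₁ * δ₂ := (ha.2 _).trans (mul_le_mul_of_nonneg_left hb.1 hδ1)
    have e3 : ‖B (a 0) - a 0‖ ≤ δ₂ * δ₁ := (hb.2 _).trans (mul_le_mul_of_nonneg_left ha.1 hδ2)
    have e4 : ‖A (B u) - B (A u)‖ ≤ 2 * δ₁ * δ₂ * 1 := by
      refine (hAB u).trans (mul_le_mul_of_nonneg_left ?_ (by positivity))
      linarith
    calc _ ≤ ‖A (B u) - B (A u) + (A (b 0) - b 0)‖ + ‖B (a 0) - a 0‖ := norm_sub_le _ _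
      _ ≤ ‖A (B u) - B (A u)‖ + ‖A (b 0) - b 0‖ + ‖B (a 0) - a 0‖ := by
        gcongr; exact norm_add_le _ _
      _ ≤ 4 * δ₁ * δ₂ := by linarith
  · -- linear part
    intro v
    set w := A⁻¹ (B⁻¹ v) with hw
    have e0 : (a * b * a⁻¹ * b⁻¹).linearIsometryEquiv v = A (B w) := rfl
    have e1 : B (A w) = v := by
      have : (B * (A * (A⁻¹ * B⁻¹))) v = v := by
        rw [← mul_assoc A, mul_inv_cancel, one_mul, mul_inv_cancel]; rfl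
      exact this
    have e2 : ‖w‖ = ‖v‖ := by rw [← e1, B.norm_map, A.norm_map]
    rw [e0]
    have h3 := hAB w
    rw [e1, e2] at h3
    have := norm_nonneg v
    have : 0 ≤ δ₁ * δ₂ * ‖v‖ := by positivity
    linarith
  · -- inside Y
    intro p hp hn
    refine ⟨comm_mem ha hb h1 h2 hD hρ hga hgb hp hn, ?_⟩
    have e : (a * b * a⁻¹ * b⁻¹)⁻¹ = b * a * b⁻¹ * a⁻¹ := by group
    rw [e]
    exact comm_mem hb ha h2 h1 hD hρ hgb hga hp hn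

end Pool.Agent.Helper68.Del
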