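import Pool.Agent.Helper31.Del.Goals

/-! Packets S2 (partition of unity) and S3 (countably many thin sets). -/

namespace Pool.Agent.Helper68.Del

open Module Pool.Agent.Helper31.Del

theorem coverSurj (E : Type*) [NormedAddCommGroup E] [InnerProductSpace ℝ E]
    [FiniteDimensional ℝ E] (hB : BddSurj E) : CoverSurj E := by
  intro J U h C Z hU hcov hcont hC hZ
  obtain ⟨f, hf⟩ := PartitionOfUnity.exists_isSubordinate (X := E) isClosed_univ U hU
    (fun q _ => Set.mem_iUnion.2 (hcov q))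
  set φ : E → E := fun q => ∑ᶠ j, f j q • h j q with hφ
  have hmem : ∀ (j : J) (q : E), f j q ≠ 0 → q ∈ U j := fun j q hj =>
    hf j (subset_tsupport _ hj)
  have hcφ : Continuous φ := f.continuous_finsum_smul fun j x hx =>
    (hcont j).continuousAt ((hU j).mem_nhds (hf j hx))
  have hbd : ∀ q, ‖φ q - q‖ ≤ C := by
    intro q
    have h1 : φ q ∈ Metric.closedBall q C := by
      refine f.finsum_smul_mem_convex (Set.mem_univ q) (fun j hj => ?_) (convex_closedBall q C)
      rw [mem_closedBall_iff_norm]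
      exact hC j q (hmem j q hj)
    rwa [mem_closedBall_iff_norm] at h1
  have hconv : ∀ q, φ q ∈ Z := by
    intro q
    refine hZ q ?_
    refine f.finsum_smul_mem_convex (Set.mem_univ q) (fun j hj => ?_) (convex_convexHull ℝ _)
    exact subset_convexHull ℝ _ ⟨j, hmem j q hj, rfl⟩
  rw [Set.eq_univ_iff_forall]
  intro p
  obtain ⟨q, rfl⟩ := hB φ C hcφ hbd p
  exact hconv q

theorem thinUnion (E : Type*) [NormedAddCommGroup E] [InnerProductSpace ℝ E]
    [FiniteDimensional ℝ E] : ThinUnion E := by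
  intro 𝒮 hcount hthin
  rcases 𝒮.eq_empty_or_nonempty with rfl | ⟨S₀, hS₀⟩
  · exact ⟨0, fun S hS => absurd hS (Set.notMem_empty S)⟩
  have hpos : 0 < finrank ℝ E := by
    obtain ⟨n, hn, _⟩ := hthin S₀ hS₀
    omega
  have hdim : dimH (⋃₀ 𝒮) ≤ ((finrank ℝ E - 1 : ℕ) : ENNReal) := by
    rw [dimH_sUnion hcount]
    refine iSup₂_le fun S hS => ?_
    obtain ⟨n, hn, Ψ, hΨ, hsub⟩ := hthin S hS
    calc dimH S ≤ dimH (Set.range Ψ) := dimH_mono hsub
      _ ≤ finrank ℝ (Fin n → ℝ) := hΨ.dimH_range_le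
      _ = (n : ENNReal) := by rw [Module.finrank_fin_fun]
      _ ≤ ((finrank ℝ E - 1 : ℕ) : ENNReal) := by
        exact_mod_cast (by omega : n ≤ finrank ℝ E - 1)
  have hlt : dimH (⋃₀ 𝒮) < finrank ℝ E := by
    refine lt_of_le_of_lt hdim ?_
    exact_mod_cast (by omega : finrank ℝ E - 1 < finrank ℝ E)
  obtain ⟨p, hp⟩ := (dense_compl_of_dimH_lt_finrank hlt).nonempty
  exact ⟨p, fun S hS hpS => hp ⟨S, hS, hpS⟩⟩

end Pool.Agent.Helper68.Del
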