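import Pool.Agent.Helper31.Del.Goals

/-! Packet S6: a smooth map into `F` that goes to `C` near `C`. -/

namespace Pool.Agent.Helper68.Del

open Module Pool.Agent.Helper31.Del

section

variable {E : Type*} [NormedAddCommGroup E] [InnerProductSpace ℝ E] [FiniteDimensional ℝ E]

/-- the orthogonal projection onto a nonempty affine subspace is smooth -/
lemma exists_proj (F : AffineSubspace ℝ E) (hF : (F : Set E).Nonempty) :
    ∃ P : E → E, ContDiff ℝ 1 P ∧ (∀ b, P b ∈ F) ∧ ∀ b, ∀ f ∈ F, ‖P b - b‖ ≤ ‖b - f‖ := by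
  obtain ⟨x₀, hx₀⟩ := hF
  refine ⟨fun b => F.direction.starProjection (b - x₀) + x₀, ?_, ?_, ?_⟩
  · exact ((ContinuousLinearMap.contDiff _).comp (contDiff_id.sub contDiff_const)).add
      contDiff_const
  · intro b
    exact AffineSubspace.vadd_mem_of_mem_direction
      (Submodule.starProjection_apply_mem _ _) hx₀
  · intro b f hf
    have h1 := F.direction.starProjection_minimal (b - x₀)
    have hmem : f - x₀ ∈ F.direction := F.vsub_mem_direction hf hx₀
    have h2 : ‖(b - x₀) - F.direction.starProjection (b - x₀)‖ ≤ ‖(b - x₀) - (f - x₀)‖ := by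
      rw [h1]
      exact ciInf_le (f := fun x : F.direction => ‖(b - x₀) - (x : E)‖)
        ⟨0, by rintro _ ⟨x, rfl⟩; exact norm_nonneg _⟩ ⟨f - x₀, hmem⟩
    have h3 : ‖F.direction.starProjection (b - x₀) + x₀ - b‖ =
        ‖(b - x₀) - F.direction.starProjection (b - x₀)‖ := by
      rw [norm_sub_rev]; congr 1; abel
    have h4 : (b - x₀) - (f - x₀) = b - f := by abel
    rw [h3]
    rw [h4] at h2
    exact h2

end

theorem cutMap (E : Type*) [NormedAddCommGroup E] [InnerProductSpace ℝ E]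
    [FiniteDimensional ℝ E] : CutMap E := by
  intro C F c₁ hCF hF hc₁
  obtain ⟨PF, hPFs, hPFm, hPFn⟩ := exists_proj F hF
  by_cases hC : (C : Set E).Nonempty
  swap
  · refine ⟨PF, hPFs, hPFm, ?_, ?_⟩
    · intro b c hc _
      exact absurd ⟨c, hc⟩ hC
    · intro b f hf
      have := hPFn b f hf
      linarith
  obtain ⟨PC, hPCs, hPCm, hPCn⟩ := exists_proj C hC
  set χ : E → ℝ := fun b => Real.smoothTransition (‖PC b - b‖ ^ 2 - c₁ ^ 2) with hχ
  have hχs : ContDiff ℝ 1 χ := by
    refine (Real.smoothTransition.contDiff (n := 1)).comp ?_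
    exact ((hPCs.sub contDiff_id).norm_sq ℝ).sub contDiff_const
  have hχ0 : ∀ b, 0 ≤ χ b := fun b => Real.smoothTransition.nonneg _
  have hχ1 : ∀ b, χ b ≤ 1 := fun b => Real.smoothTransition.le_one _
  refine ⟨fun b => χ b • (PF b - PC b) + PC b, ?_, ?_, ?_, ?_⟩
  · exact (hχs.smul (hPFs.sub hPCs)).add hPCs
  · intro b
    exact F.smul_vsub_vadd_mem (χ b) (hPFm b) (hCF (hPCm b)) (hCF (hPCm b))
  · intro b c hc hbc
    have h1 : ‖PC b - b‖ ≤ c₁ := (hPCn b c hc).trans hbc
    have h2 : χ b = 0 := by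
      refine Real.smoothTransition.zero_of_nonpos ?_
      have := pow_le_pow_left₀ (norm_nonneg _) h1 2
      linarith
    show χ b • (PF b - PC b) + PC b ∈ C
    rw [h2, zero_smul, zero_add]
    exact hPCm b
  · intro b f hf
    show ‖χ b • (PF b - PC b) + PC b - b‖ ≤ _
    have h1 := hPFn b f hf
    rcases le_total (c₁ + 1) ‖PC b - b‖ with h | h
    · have h2 : χ b = 1 := by
        refine Real.smoothTransition.one_of_one_le ?_
        have := pow_le_pow_left₀ (by linarith) h 2
        nlinarith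
      rw [h2, one_smul, sub_add_cancel]
      linarith
    · have h2 : χ b • (PF b - PC b) + PC b - b = χ b • (PF b - b) + (1 - χ b) • (PC b - b) := by
        simp only [smul_sub, sub_smul, one_smul]; abel
      have h3 := hχ0 b
      have h4 := hχ1 b
      rw [h2]
      calc ‖χ b • (PF b - b) + (1 - χ b) • (PC b - b)‖
          ≤ ‖χ b • (PF b - b)‖ + ‖(1 - χ b) • (PC b - b)‖ := norm_add_le _ _
        _ = χ b * ‖PF b - b‖ + (1 - χ b) * ‖PC b - b‖ := by
          rw [norm_smul, norm_smul, Real.norm_of_nonneg h3, Real.norm_of_nonneg (by linarith)]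
        _ ≤ 1 * ‖b - f‖ + 1 * (c₁ + 1) := by
          gcongr
          linarith
        _ = ‖b - f‖ + c₁ + 1 := by ring

end Pool.Agent.Helper68.Del
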