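import Pool.Agent.Helper31.Del.Goals

/-! Packet A: no small subgroups and Frobenius' lemma. -/

namespace Pool.Agent.Helper68.Del

open Module Pool.Agent.Helper31.Del

theorem noSmall (V : Type*) [NormedAddCommGroup V] [InnerProductSpace ℝ V] : NoSmall V := by
  intro A ε hε hA
  ext v
  show A v = v
  set w : ℕ → ℝ := fun k => ‖(A ^ (2 ^ k)) v - v‖ with hw
  have hstep : ∀ k, (2 - ε) * w k ≤ w (k + 1) := by
    intro k
    set C := A ^ (2 ^ k) with hC
    have h1 : (A ^ (2 ^ (k + 1))) v = C (C v) := by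
      rw [pow_succ, pow_mul, pow_two]; rfl
    have h2 : C (C v) - v = (C (C v - v) - (C v - v)) + (2 : ℝ) • (C v - v) := by
      rw [map_sub, two_smul]; abel
    have h3 : ‖C (C v - v) - (C v - v)‖ ≤ ε * ‖C v - v‖ := hA (2 ^ k) (C v - v)
    have h4 : ‖(2 : ℝ) • (C v - v)‖ ≤ ‖C (C v) - v‖ + ‖C (C v - v) - (C v - v)‖ := by
      rw [h2]
      calc ‖(2 : ℝ) • (C v - v)‖
          = ‖(C (C v - v) - (C v - v) + (2 : ℝ) • (C v - v)) - (C (C v - v) - (C v - v))‖ := by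
            congr 1; abel
        _ ≤ _ := norm_sub_le _ _
    rw [norm_smul, Real.norm_ofNat] at h4
    simp only [hw]
    rw [h1]
    show (2 - ε) * ‖C v - v‖ ≤ ‖C (C v) - v‖
    linarith
  have hq : 1 < 2 - ε := by linarith
  have hgrow : ∀ k, (2 - ε) ^ k * w 0 ≤ w k := by
    intro k
    induction k with
    | zero => simp
    | succ k ih =>
      calc (2 - ε) ^ (k + 1) * w 0 = (2 - ε) * ((2 - ε) ^ k * w 0) := by ring
        _ ≤ (2 - ε) * w k := by gcongr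
        _ ≤ w (k + 1) := hstep k
  have hbound : ∀ k, w k ≤ ε * ‖v‖ := fun k => hA (2 ^ k) v
  have hw0 : w 0 = 0 := by
    by_contra hne
    have hpos : 0 < w 0 := lt_of_le_of_ne (norm_nonneg _) (Ne.symm hne)
    obtain ⟨k, hk⟩ := pow_unbounded_of_one_lt (ε * ‖v‖ / w 0) hq
    rw [div_lt_iff₀ hpos] at hk
    have := hgrow k
    have := hbound k
    linarith
  have h5 : ‖A v - v‖ = 0 := by
    have : w 0 = ‖A v - v‖ := by simp [hw]
    rw [← this]; exact hw0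
  exact sub_eq_zero.1 (norm_eq_zero.1 h5)

theorem frob (V : Type*) [NormedAddCommGroup V] [InnerProductSpace ℝ V] : Frob V := by
  intro A B hB hcomm
  set C := A * B * A⁻¹ * B⁻¹ with hC
  refine noSmall V C (1 / 2) (by norm_num) fun n v => ?_
  have hCn : ∀ n : ℕ, A * C ^ n = C ^ n * A := fun n => Commute.pow_right (show Commute A C from hcomm) n
  have hpow : ∀ n : ℕ, A ^ n * B * (A ^ n)⁻¹ = C ^ n * B := by
    intro n
    induction n with
    | zero => simp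
    | succ n ih =>
      calc A ^ (n + 1) * B * (A ^ (n + 1))⁻¹ = A * (A ^ n * B * (A ^ n)⁻¹) * A⁻¹ := by
            rw [pow_succ', mul_inv_rev]; group
        _ = (A * C ^ n) * B * A⁻¹ := by rw [ih]; group
        _ = C ^ n * (A * B * A⁻¹) := by rw [hCn]; group
        _ = C ^ n * (C * B) := by rw [hC]; group
        _ = C ^ (n + 1) * B := by rw [pow_succ]; group
  have hCn' : C ^ n = A ^ n * B * (A ^ n)⁻¹ * B⁻¹ := by rw [hpow]; group
  set P := A ^ n with hP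
  set w := B⁻¹ v with hwd
  have hBw : B w = v := by
    show (B * B⁻¹) v = v
    rw [mul_inv_cancel]; rfl
  have hPP : P (P⁻¹ w) = w := by
    show (P * P⁻¹) w = w
    rw [mul_inv_cancel]; rfl
  have h1 : (C ^ n) v = P (B (P⁻¹ w)) := by rw [hCn']; rfl
  have h2 : P (B (P⁻¹ w)) - v = P (B (P⁻¹ w) - P⁻¹ w) + (w - v) := by
    rw [map_sub, hPP]; abel
  have h3 : ‖P (B (P⁻¹ w) - P⁻¹ w)‖ ≤ 1 / 4 * ‖v‖ := by
    rw [P.norm_map]
    refine (hB _).trans (le_of_eq ?_)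
    rw [(P⁻¹).norm_map, ← hBw, B.norm_map]
  have h4 : ‖w - v‖ ≤ 1 / 4 * ‖v‖ := by
    rw [norm_sub_rev]
    calc ‖v - w‖ = ‖B w - w‖ := by rw [hBw]
      _ ≤ 1 / 4 * ‖w‖ := hB w
      _ = 1 / 4 * ‖v‖ := by rw [← hBw, B.norm_map]
  rw [h1, h2]
  calc ‖P (B (P⁻¹ w) - P⁻¹ w) + (w - v)‖ ≤ _ := norm_add_le _ _
    _ ≤ 1 / 4 * ‖v‖ + 1 / 4 * ‖v‖ := add_le_add h3 h4
    _ = 1 / 2 * ‖v‖ := by ring

end Pool.Agent.Helper68.Del
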