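import Pool.Agent.Helper31.Del.Goals

/-! Packet C2: a rotation of finite order near the identity that preserves a lattice up to finite
index is the identity on its span. -/

namespace Pool.Agent.Helper68.Del

open Module Pool.Agent.Helper31.Del

section

variable {V : Type*} [NormedAddCommGroup V] [InnerProductSpace ℝ V]

/-- the integer span of a linearly independent finite family is discrete -/
lemma span_discrete {k : ℕ} (t : Fin k → V) (ht : LinearIndependent ℝ t) :
    ∃ ε : ℝ, 0 < ε ∧ ∀ x ∈ Submodule.span ℤ (Set.range t), ‖x‖ < ε → x = 0 := by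
  have hker : LinearMap.ker (Fintype.linearCombination ℝ t) = ⊥ := by
    rw [LinearMap.ker_eq_bot]
    exact ht.fintypeLinearCombination_injective
  obtain ⟨K, hK, hanti⟩ := LinearMap.exists_antilipschitzWith _ hker
  refine ⟨(K : ℝ)⁻¹, by positivity, fun x hx hxn => ?_⟩
  obtain ⟨z, rfl⟩ := (Submodule.mem_span_range_iff_exists_fun ℤ).1 hx
  have h1 := hanti.le_mul_dist (fun i => (z i : ℝ)) 0
  rw [map_zero, dist_zero_right, dist_zero_right] at h1
  have h2 : Fintype.linearCombination ℝ t (fun i => (z i : ℝ)) = ∑ i, z i • t i := by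
    rw [Fintype.linearCombination_apply]
    exact Finset.sum_congr rfl fun i _ => Int.cast_smul_eq_zsmul ℝ (z i) (t i)
  rw [h2] at h1
  have hKr : (0 : ℝ) < K := by exact_mod_cast hK
  have h3 : ‖(fun i => (z i : ℝ))‖ < 1 := by
    refine lt_of_le_of_lt h1 ?_
    calc (K : ℝ) * ‖∑ i, z i • t i‖ < K * (K : ℝ)⁻¹ := by gcongr
      _ = 1 := mul_inv_cancel₀ hKr.ne'
  refine Finset.sum_eq_zero fun i _ => ?_
  have h4 : ‖(z i : ℝ)‖ < 1 := lt_of_le_of_lt (norm_le_pi_norm (fun i => (z i : ℝ)) i) h3
  have h5 : |z i| < 1 := by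
    rw [Real.norm_eq_abs] at h4
    exact_mod_cast h4
  rw [Int.abs_lt_one_iff.1 h5, zero_smul]

lemma fix_of_iterate (G : V ≃ₗᵢ[ℝ] V) (j : ℕ) :
    ∀ u : V, (fun v => G v - v)^[j] u = 0 → G u - u = 0 := by
  induction j with
  | zero =>
    intro u hu
    have : u = 0 := hu
    rw [this]; simp
  | succ j ih =>
    intro u hu
    rw [Function.iterate_succ_apply] at hu
    have h := ih _ hu
    set w := G u - u with hw
    have hGw : G w = w := sub_eq_zero.1 h
    have h1 : inner ℝ w w = 0 := by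
      calc inner ℝ w w = inner ℝ w (G u) - inner ℝ w u := by
            rw [← inner_sub_right]
        _ = inner ℝ (G w) (G u) - inner ℝ w u := by rw [hGw]
        _ = 0 := by rw [G.inner_map_map, sub_self]
    exact inner_self_eq_zero.1 h1

end

theorem ratRot (V : Type*) [NormedAddCommGroup V] [InnerProductSpace ℝ V] : RatRot V := by
  classical
  intro k t G c ht hc hG hfin hM i₀
  obtain ⟨n, hn, hGn⟩ := hfin
  choose M hMpos hM using hM
  set L := Submodule.span ℤ (Set.range t) with hL
  -- one multiple for all elements of the lattice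
  obtain ⟨N, hN, hNL⟩ : ∃ N : ℕ, 0 < N ∧ ∀ x ∈ L, N • G x ∈ L := by
    refine ⟨∏ i, M i, Finset.prod_pos fun i _ => hMpos i, fun x hx => ?_⟩
    induction hx using Submodule.span_induction with
    | mem x hx =>
      obtain ⟨i, rfl⟩ := hx
      obtain ⟨q, hq⟩ := Finset.dvd_prod_of_mem M (Finset.mem_univ i)
      rw [hq, mul_comm, mul_smul]
      exact L.smul_of_tower_mem q (hM i)
    | zero => simp
    | add x y _ _ hx hy => rw [map_add, smul_add]; exact L.add_mem hx hy
    | smul a x _ hx =>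
      rw [map_zsmul, smul_comm]
      exact L.smul_mem a hx
  have hpow : ∀ j : ℕ, ∀ x ∈ L, N ^ j • (G ^ j) x ∈ L := by
    intro j
    induction j with
    | zero => intro x hx; simpa using hx
    | succ j ih =>
      intro x hx
      have h1 := hNL _ (ih x hx)
      rw [map_nsmul] at h1
      rw [pow_succ', pow_succ', mul_smul]
      exact h1
  have hall : ∀ j : ℕ, ∀ x ∈ L, N ^ n • (G ^ j) x ∈ L := by
    intro j x hx
    have h1 : G ^ j = G ^ (j % n) := by
      conv_lhs => rw [← Nat.div_add_mod j n, pow_add, pow_mul, hGn, one_pow, one_mul]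
    have h2 : N ^ n = N ^ (n - j % n) * N ^ (j % n) := by
      rw [← pow_add]; congr 1; have := Nat.mod_lt j hn; omega
    rw [h1, h2, mul_smul]
    exact L.smul_of_tower_mem _ (hpow _ x hx)
  -- the differences stay in the set S
  set D : V → V := fun v => G v - v with hD
  have hS : ∀ m : ℕ, ∀ x : V, (∀ j : ℕ, N ^ n • (G ^ j) x ∈ L) →
      ∀ j : ℕ, N ^ n • (G ^ j) (D^[m] x) ∈ L := by
    intro m
    induction m with
    | zero => intro x hx; exact hx
    | succ m ih =>
      intro x hx
      rw [Function.iterate_succ]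
      refine ih (D x) fun j => ?_
      have h1 : (G ^ j) (D x) = (G ^ (j + 1)) x - (G ^ j) x := by
        rw [hD, map_sub, pow_succ]; rfl
      rw [h1, smul_sub]
      exact L.sub_mem (hx (j + 1)) (hx j)
  have hmem : ∀ m : ℕ, N ^ n • D^[m] (t i₀) ∈ L := by
    intro m
    have := hS m (t i₀) (fun j => hall j _ (Submodule.subset_span ⟨i₀, rfl⟩)) 0
    simpa using this
  -- the differences are small
  set c' := max c 0 with hc'
  have hc'1 : c' < 1 := max_lt hc one_pos
  have hc'0 : 0 ≤ c' := le_max_right _ _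
  have hnorm : ∀ m : ℕ, ‖D^[m] (t i₀)‖ ≤ c' ^ m * ‖t i₀‖ := by
    intro m
    induction m with
    | zero => simp
    | succ m ih =>
      rw [Function.iterate_succ_apply', pow_succ']
      calc ‖D (D^[m] (t i₀))‖ ≤ c * ‖D^[m] (t i₀)‖ := hG _
        _ ≤ c' * ‖D^[m] (t i₀)‖ := by gcongr; exact le_max_left _ _
        _ ≤ c' * (c' ^ m * ‖t i₀‖) := by gcongr
        _ = c' * c' ^ m * ‖t i₀‖ := by ring
  obtain ⟨ε, hε, hdisc⟩ := span_discrete t ht
  have hlim : Filter.Tendsto (fun m : ℕ => ((N ^ n : ℕ) : ℝ) * (c' ^ m * ‖t i₀‖)) Filter.atTop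
      (nhds 0) := by
    have := (tendsto_pow_atTop_nhds_zero_of_lt_one hc'0 hc'1).mul_const (‖t i₀‖)
    have := this.const_mul ((N ^ n : ℕ) : ℝ)
    simpa using this
  obtain ⟨m, hm⟩ := (hlim.eventually (gt_mem_nhds hε)).exists
  have h1 : N ^ n • D^[m] (t i₀) = 0 := by
    refine hdisc _ (hmem m) (lt_of_le_of_lt ?_ hm)
    rw [← Nat.cast_smul_eq_nsmul ℝ, norm_smul]
    simp only [Real.norm_natCast]
    gcongr
    exact hnorm m
  have h2 : D^[m] (t i₀) = 0 := by
    rw [← Nat.cast_smul_eq_nsmul ℝ] at h1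
    rcases smul_eq_zero.1 h1 with h | h
    · exfalso
      have : (0 : ℝ) < ((N ^ n : ℕ) : ℝ) := by
        exact_mod_cast pow_pos hN n
      linarith
    · exact h
  exact sub_eq_zero.1 (fix_of_iterate G m (t i₀) h2)

end Pool.Agent.Helper68.Del
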